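import Mathlib

set_option autoImplicit false

open Set

namespace Pool.Agent.Results.MP_95a664_lc.NoMinimal

universe u

/-- `P ≤_T Q`: some map `Q → P` sends cofinal sets to cofinal sets. -/
def TukeyLe (P : Type u) [PartialOrder P] (Q : Type) [PartialOrder Q] : Prop :=
  ∃ f : Q → P, ∀ B : Set Q, IsCofinal B → IsCofinal (f '' B)

/-- `I` is an ideal of subsets of `X` (closed under subsets and finite unions) with `⋃ I = X`. -/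
def IsIdealOn {X : Type} (I : Set (Set X)) : Prop :=
  (∀ A ∈ I, ∀ B ⊆ A, B ∈ I) ∧ (∀ A ∈ I, ∀ B ∈ I, A ∪ B ∈ I) ∧ ⋃₀ I = univ

/-- `Q` is `I`-cohesive. -/
def Cohesive {X : Type} (I : Set (Set X)) (Q : Type) [PartialOrder Q] : Prop :=
  ∃ q : X → Q, ∀ S : Set X, S ∉ I → ¬ BddAbove (q '' S)

theorem result : ∃ (X : Type) (I : Set (Set X)), IsIdealOn I ∧ univ ∉ I ∧
    ∀ (P : Type u) [PartialOrder P], ¬ ∀ (Q : Type) [PartialOrder Q] [IsDirectedOrder Q]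
      [Nonempty Q], TukeyLe P Q ↔ Cohesive I Q := by
  let I : Set (Set (ℕ × ℝ)) := {S | ∃ n, ∃ C : Set ℝ, C.Countable ∧ ∀ p ∈ S, p.1 ≤ n ∨ p.2 ∈ C}
  have hu : univ ∉ I := by
    rintro ⟨n, C, hC, h⟩
    exact Cardinal.not_countable_real (hC.mono fun x _ => (h (n + 1, x) trivial).resolve_left (by simp))
  refine ⟨ℕ × ℝ, I, ⟨fun A ⟨n, C, hC, h⟩ B hB => ⟨n, C, hC, fun p hp => h p (hB hp)⟩,
    fun A ⟨n, C, hC, h⟩ B ⟨m, D, hD, h'⟩ => ⟨max n m, C ∪ D, hC.union hD, fun p hp => ?_⟩,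
    eq_univ_of_forall fun p => ⟨{p}, ⟨p.1, ∅, countable_empty, by simp⟩, rfl⟩⟩, hu, fun P _ h => ?_⟩
  · rcases hp with hp | hp
    · exact (h p hp).imp (fun h => h.trans (le_max_left _ _)) Or.inl
    · exact (h' p hp).imp (fun h => h.trans (le_max_right _ _)) Or.inr
  let Q := {C : Set ℝ // C.Countable}
  haveI : IsDirectedOrder Q := ⟨fun a b => ⟨⟨a.1 ∪ b.1, a.2.union b.2⟩,
    (subset_union_left : a.1 ⊆ _), (subset_union_right : b.1 ⊆ _)⟩⟩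
  haveI : Nonempty Q := ⟨⟨∅, countable_empty⟩⟩
  obtain ⟨f, hf⟩ := (h ℕ).2 ⟨Prod.fst, fun S hS ⟨n, hn⟩ =>
    hS ⟨n, ∅, countable_empty, fun p hp => Or.inl (hn ⟨p, hp, rfl⟩)⟩⟩
  obtain ⟨g, hg⟩ := (h Q).2 ⟨fun p => ⟨{p.2}, countable_singleton _⟩, fun S hS ⟨C, hC⟩ =>
    hS ⟨0, C.1, C.2, fun p hp => Or.inr (singleton_subset_iff.1 (hC ⟨p, hp, rfl⟩))⟩⟩
  have h1 : ∀ n, ∃ C : Q, ∀ D, C ≤ D → f n ≤ g D := fun n => by
    by_contra hn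
    push Not at hn
    obtain ⟨_, ⟨D, hD, rfl⟩, h2⟩ := hg {D | ¬ f n ≤ g D} (fun C => (hn C).imp fun _ h => h.symm) (f n)
    exact hD h2
  choose C hC using h1
  obtain ⟨q, hq⟩ := (h Unit).1 ⟨fun _ => g ⟨⋃ n, (C n).1, countable_iUnion fun n => (C n).2⟩,
    fun B hB p => by
      obtain ⟨_, ⟨n, -, rfl⟩, hn⟩ := hf univ IsCofinal.univ p
      obtain ⟨b, hb, -⟩ := hB ()
      exact ⟨_, ⟨b, hb, rfl⟩, hn.trans (hC n _ (subset_iUnion (fun n => (C n).1) n))⟩⟩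
  exact hq univ hu ⟨(), fun _ _ => le_rfl⟩

end Pool.Agent.Results.MP_95a664_lc.NoMinimal
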